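import Pool.Agent.helper25.PL.SpecA
import Pool.Agent.helper28.PM.PCN
import Pool.Agent.helper25.PM.PCT

/-!
# Project pl:, row ACN: the count for pairwise good times (general constant)
-/

set_option autoImplicit false

open Complex Metric Set Filter Topology MeasureTheory
open Pool.Agent.helper98.ILF
open WP (it)
open HY (UD T S hd UN RM)
open PM

noncomputable section

namespace PL

theorem ACN_cls (hAPG : APG_stmt) (hPBG : PBG_stmt) (hTDF : TDF_stmt) (hVKF : VKF_stmt) (hVCF : VCF_stmt)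
    (hVFC : VFC_stmt) (f : Polynomial ℂ) (R δ e₀ d₀ : ℝ) (k₀ : ℕ) (hST : ST f R δ e₀ d₀ k₀) (a₀ : ℝ) (ha₀ : 0 < a₀) :
    ∃ N : ℕ, ∀ (k : ℕ) (p : ℂ), p ∈ JJ f → ∀ q ∈ VK f R k, ∀ (m : ℕ) (A : ℝ) (ι : Finset ℕ), 0 < A →
      (∀ i ∈ ι, it f i p ∈ VC f R k q ∧ (1 / 2 : ℝ) ^ (m + 1) ≤ 1 - pd (VC f R k q) q (it f i p) ∧
        1 - pd (VC f R k q) q (it f i p) ≤ (1 / 2 : ℝ) ^ m ∧ A ≤ PV f R k p i ∧ PV f R k p i ≤ 2 * A) →
      (∀ u ∈ ι, ∀ v ∈ ι, u < v → a₀ ≤ hdx f R k p u v) → ι.card ≤ N * 2 ^ m := by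
  have hER : ER f R := ⟨hST.R1, hST.esc⟩
  obtain ⟨r₀, hr0, hr1, hPB⟩ := hPBG (min a₀ 1) (lt_min ha₀ one_pos) (min_le_right _ _)
  obtain ⟨N, hN⟩ := hAPG f R δ e₀ d₀ k₀ hST r₀ hr0 hr1
  refine ⟨N, ?_⟩
  intro k p hp q hq m A ι hA hι hpair
  obtain ⟨-, -, -, -, hki, -, -, -⟩ := hVKF f R hST.deg hER
  have hJit : ∀ i, it f i p ∈ JJ f := by
    intro i
    induction i with
    | zero =>
      have h : it f 0 p = p := rfl
      rw [h]
      exact hp
    | succ n ih =>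
      have h : it f (n + 1) p = f.eval (it f n p) := by
        unfold WP.it
        rw [Function.iterate_succ_apply']
      rw [h]
      exact (hST.Ji _).mpr ih
  obtain ⟨hDV, hqV, -, hVeq, -, -, -, -⟩ := hVCF f R hST.deg hER k q hq
  have hPV : ∀ u ∈ ι, PV f R k p u = ‖deriv (it f u) p‖ / cr (VC f R k q) (it f u p) := by
    intro u hu
    unfold PV
    rw [hVeq _ (hι u hu).1]
  refine hN (VC f R k q) q p m A ι hDV hqV hA ?_ ?_
  · intro u hu
    obtain ⟨h1, h2, h3, h4, h5⟩ := hι u hu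
    rw [hPV u hu] at h4 h5
    exact ⟨hJit u, h1, h2, h3, h4, h5⟩
  · intro u hu v hv huv
    have hdx0 := hpair u hu v hv huv
    have huVq : it f u p ∈ VC f R k q := (hι u hu).1
    have hvVq : it f v p ∈ VC f R k q := (hι v hv).1
    have hsum : v - u + u = v := Nat.sub_add_cancel huv.le
    have hit : it f (v - u) (it f u p) = it f v p := by
      rw [← PCN_it_add, hsum]
    have haV : it f u p ∈ VK f R (k + (v - u)) := hST.Jv _ (hJit u) _
    obtain ⟨hDW, haW, -, -, -, hWl, -, -⟩ := hVCF f R hST.deg hER (k + (v - u)) (it f u p) haV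
    have hvK : it f v p ∈ VK f R k := hST.Jv _ (hJit v) _
    obtain ⟨hDv, hvv, -, -, -, -, -, -⟩ := hVCF f R hST.deg hER k (it f v p) hvK
    have hvv' : it f v p ∈ VC f R k (it f (v - u) (it f u p)) := by
      rw [hit]
      exact hvv
    obtain ⟨hFd, hFm, hF0, hFr, -⟩ := hVFC f R hST.deg hER k (v - u) (it f u p) haV (it f v p) hvv'
    obtain ⟨-, -, hTW⟩ := hTDF _ hDW
    obtain ⟨hRW, hcrW, -⟩ := hTW _ haW
    obtain ⟨-, -, hTV⟩ := hTDF _ hDv
    obtain ⟨hRV, hcrV, hcx0, -⟩ := hTV _ hvv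
    have hF0' : FC f R k (v - u) (it f u p) (it f v p) 0 = 0 := by
      rw [hF0, hit, hcx0]
    have hder := PCN_der (VC f R (k + (v - u)) (it f u p)) (VC f R k (it f v p)) (it f u p) (it f v p)
      (it f (v - u)) (FC f R k (v - u) (it f u p) (it f v p)) hRW hRV (PCN_it_diff f _ _) hFd hF0' hFr
    have hhalf : min a₀ 1 ≤ ‖deriv (FC f R k (v - u) (it f u p) (it f v p)) 0‖ := by
      have h1 : hdx f R k p u v = ‖deriv (FC f R k (v - u) (it f u p) (it f v p)) 0‖ := by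
        unfold hdx hdf
        rw [hit, ← hder]
        field_simp
      rw [← h1]
      exact (min_le_left _ _).trans hdx0
    obtain ⟨H₀, hH, hH0, hHr⟩ := hPB _ hFd hFm hF0' hhalf
    refine ⟨fun x => rm (VC f R (k + (v - u)) (it f u p)) (it f u p) (H₀ x), ?_, ?_, ?_, ?_, ?_⟩
    · exact hRW.dif.comp hH.dif hH.map
    · exact hRW.inj.comp hH.inj hH.map
    · intro x hx
      have h1 : rm (VC f R (k + (v - u)) (it f u p)) (it f u p) (H₀ x) ∈ VC f R (k + (v - u)) (it f u p) := by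
        have h2 : rm (VC f R (k + (v - u)) (it f u p)) (it f u p) (H₀ x) ∈
            rm (VC f R (k + (v - u)) (it f u p)) (it f u p) '' UD := ⟨H₀ x, hH.map hx, rfl⟩
        rw [hRW.img] at h2
        exact h2
      have h3 := hWl k (Nat.le_add_right _ _) h1
      rw [hVeq _ huVq] at h3
      exact h3
    · show rm _ _ (H₀ 0) = _
      rw [hH0, hRW.val]
    · intro x hx
      have h1 := hFr (H₀ x) (hH.map hx)
      rw [(hHr x hx).1] at h1
      rw [← hVeq _ hvVq]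
      exact h1.symm

theorem ACN (hAPG : APG_stmt) (hPBG : PBG_stmt) (hTDF : TDF_stmt) (hVKF : VKF_stmt) (hVCF : VCF_stmt)
    (hVFC : VFC_stmt) : ACN_stmt := by
  intro f R δ e₀ d₀ k₀ hST a₀ ha₀
  obtain ⟨N, hN⟩ := ACN_cls hAPG hPBG hTDF hVKF hVCF hVFC f R δ e₀ d₀ k₀ hST a₀ ha₀
  refine ⟨4 * N + 1, by positivity, ?_⟩
  intro k p b σ A B ι hp hs hs1 hA hAB hι hpair
  have hBA : (1 : ℝ) ≤ B / A := by rw [le_div_iff₀ hA]; linarith
  have hlk : 0 ≤ Real.log (B / A) := Real.log_nonneg hBA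
  rcases ι.eq_empty_or_nonempty with he | ⟨i₀, hi₀⟩
  · rw [he, Finset.card_empty]
    push_cast
    positivity
  have hpd : ∀ i ∈ ι, b ∈ VC f R k b ∧ it f i p ∈ VC f R k b := fun i hi => PCT_pd (by linarith [(hι i hi).1])
  have hbK : b ∈ VK f R k := connectedComponentIn_subset _ _ (hpd i₀ hi₀).1
  obtain ⟨mm, hmm1, hmm2⟩ := exists_nat_pow_near (x := 1 / σ) (y := (2 : ℝ)) (by
    rw [le_div_iff₀ hs]; linarith) (by norm_num)
  set L : ℕ := ⌊Real.log (B / A) / Real.log 2⌋₊ with hL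
  have hlog2 : 0 < Real.log 2 := Real.log_pos (by norm_num)
  have hlog2' : (1 / 2 : ℝ) < Real.log 2 := by
    have := Real.log_two_gt_d9; linarith
  set P : ℕ × ℕ → Finset ℕ := fun q => ι.filter (fun i => (1 / 2 : ℝ) ^ (q.1 + 1) ≤ 1 - pd (VC f R k b) b (it f i p) ∧
    1 - pd (VC f R k b) b (it f i p) ≤ (1 / 2 : ℝ) ^ q.1 ∧ A * 2 ^ q.2 ≤ PV f R k p i ∧
    PV f R k p i ≤ 2 * (A * 2 ^ q.2)) with hP
  have hPcard : ∀ q, (P q).card ≤ N * 2 ^ q.1 := by
    intro q
    apply hN k p hp b hbK q.1 (A * 2 ^ q.2) (P q) (by positivity)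
    · intro i hi
      rw [hP, Finset.mem_filter] at hi
      obtain ⟨hi1, h1, h2, h3, h4⟩ := hi
      exact ⟨(hpd i hi1).2, h1, h2, h3, h4⟩
    · intro u hu v hv huv
      rw [hP, Finset.mem_filter] at hu hv
      exact hpair u hu.1 v hv.1 huv
  have hsub : ι ⊆ (Finset.range (mm + 1) ×ˢ Finset.range (L + 1)).biUnion P := by
    intro i hi
    obtain ⟨his, hiA, hiB⟩ := hι i hi
    have hy0 : 0 ≤ pd (VC f R k b) b (it f i p) := PCT_nonneg _ _ _
    obtain ⟨m, hm1, hm2⟩ := exists_nat_pow_near_of_lt_one (x := 1 - pd (VC f R k b) b (it f i p)) (y := (1 / 2 : ℝ)) (by linarith)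
      (by linarith) (by norm_num) (by norm_num)
    have hR1 : 1 ≤ PV f R k p i / A := by
      rw [le_div_iff₀ hA]; linarith
    obtain ⟨l, hl1, hl2⟩ := exists_nat_pow_near (x := PV f R k p i / A) (y := (2 : ℝ)) hR1 (by norm_num)
    rw [Finset.mem_biUnion]
    refine ⟨(m, l), ?_, ?_⟩
    · rw [Finset.mem_product, Finset.mem_range, Finset.mem_range]
      constructor
      · have h1 : σ ≤ (1 / 2 : ℝ) ^ m := le_trans his hm2
        have h2 : (2 : ℝ) ^ m ≤ 1 / σ := by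
          rw [le_div_iff₀ hs]
          have h3 : (2 : ℝ) ^ m * (1 / 2 : ℝ) ^ m = 1 := by
            rw [← mul_pow]; norm_num
          calc (2 : ℝ) ^ m * σ ≤ (2 : ℝ) ^ m * (1 / 2 : ℝ) ^ m := by gcongr
            _ = 1 := h3
        have h3 : (2 : ℝ) ^ m < 2 ^ (mm + 1) := lt_of_le_of_lt h2 hmm2
        exact (pow_lt_pow_iff_right₀ (by norm_num : (1 : ℝ) < 2)).mp h3
      · have h1 : (2 : ℝ) ^ l ≤ B / A := by
          refine le_trans hl1 ?_
          gcongr
        have h2 : (l : ℝ) * Real.log 2 ≤ Real.log (B / A) := by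
          rw [← Real.log_pow]
          exact Real.log_le_log (by positivity) h1
        have h3 : (l : ℝ) ≤ Real.log (B / A) / Real.log 2 := by
          rw [le_div_iff₀ hlog2]; exact h2
        exact Nat.lt_succ_of_le (Nat.le_floor h3)
    · show i ∈ P (m, l)
      rw [hP, Finset.mem_filter]
      refine ⟨hi, hm1.le, hm2, ?_, ?_⟩
      · show A * 2 ^ l ≤ PV f R k p i
        rw [le_div_iff₀ hA] at hl1
        linarith
      · show PV f R k p i ≤ 2 * (A * 2 ^ l)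
        rw [div_lt_iff₀ hA, pow_succ] at hl2
        linarith
  have hcard : ι.card ≤ ∑ q ∈ Finset.range (mm + 1) ×ˢ Finset.range (L + 1), N * 2 ^ q.1 :=
    le_trans (Finset.card_le_card hsub) (le_trans Finset.card_biUnion_le (Finset.sum_le_sum (fun q _ => hPcard q)))
  have hsum : ∑ q ∈ Finset.range (mm + 1) ×ˢ Finset.range (L + 1), N * 2 ^ q.1 ≤ (L + 1) * (N * 2 ^ (mm + 1)) := by
    rw [Finset.sum_product]
    simp only [Finset.sum_const, Finset.card_range, smul_eq_mul]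
    rw [← Finset.mul_sum, ← Finset.mul_sum]
    have : ∑ i ∈ Finset.range (mm + 1), 2 ^ i ≤ 2 ^ (mm + 1) := by
      have h := Nat.geomSum_eq (m := 2) le_rfl (mm + 1)
      rw [h]; simp
    gcongr
  have hreal : (ι.card : ℝ) ≤ ((L : ℝ) + 1) * (N * 2 ^ (mm + 1)) := by
    have := le_trans hcard hsum
    exact_mod_cast this
  have hLr : (L : ℝ) ≤ Real.log (B / A) / Real.log 2 := Nat.floor_le (by positivity)
  have hLr2 : (L : ℝ) + 1 ≤ 2 * (1 + Real.log (B / A)) := by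
    have e2 : Real.log (B / A) / Real.log 2 ≤ 2 * Real.log (B / A) := by
      rw [div_le_iff₀ hlog2]
      nlinarith
    linarith
  have h2mm : (2 : ℝ) ^ (mm + 1) ≤ 2 / σ := by
    rw [pow_succ]
    have : (2 : ℝ) / σ = 1 / σ * 2 := by ring
    rw [this]
    gcongr
  calc (ι.card : ℝ) ≤ ((L : ℝ) + 1) * (N * 2 ^ (mm + 1)) := hreal
    _ ≤ (2 * (1 + Real.log (B / A))) * (N * (2 / σ)) := by gcongr
    _ = (4 * N) / σ * (1 + Real.log (B / A)) := by ring
    _ ≤ (4 * N + 1) / σ * (1 + Real.log (B / A)) := by gcongr; linarith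

end PL
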